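import Pool.Agent.H19.IntK

set_option autoImplicit false

namespace Pool.Agent.Results.MP_457b0e_al.IntegralClosure

open Polynomial Pool.Agent.H19.IntK

universe u v w

/-- For every integrally closed domain `D` and every torsion-free module-finite `D`-algebra
`A ⊇ D`, the integral closure of `Int_K(A)` in `K(X)` is `Int_K(A, A')`. -/
theorem result (D : Type u) (K : Type v) (A : Type w) [CommRing D] [IsDomain D]
    [IsIntegrallyClosed D] [Field K] [Algebra D K] [IsFractionRing D K] [Ring A] [Algebra D A]
    [FaithfulSMul D A] [Module.IsTorsionFree D A] [Module.Finite D A] (g : RatFunc K) :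
    IsIntegral (IntK D K A) g ↔ ∃ f ∈ IntK' D K A, algebraMap K[X] (RatFunc K) f = g := by
  have hi := IsFractionRing.injective K[X] (RatFunc K)
  refine ⟨fun h => ?_, fun ⟨f, hf, h⟩ => h ▸ (integral_of_mem hf).algebraMap⟩
  obtain ⟨f, rfl⟩ := IsIntegrallyClosed.isIntegral_iff.mp (h.tower_top (A := K[X]))
  exact ⟨f, mem_of_integral ((isIntegral_algebraMap_iff hi).mp h), rfl⟩

end Pool.Agent.Results.MP_457b0e_al.IntegralClosure
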